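import Mathlib
import Pool.Agent.V1181.LogStretch

/-!
# No energy depending only on the logarithmic distortion is Legendre-Hadamard elliptic
-/

set_option autoImplicit false

namespace Pool.Agent.Results.MP_e7e597_an.NoElliptic

open Pool.Agent.V1181.LogStretch
open Matrix Polynomial Filter Topology Set
open scoped Matrix

noncomputable section

/-- Legendre-Hadamard ellipticity on `GL⁺(3)` of `Φ(F) = W (‖dev₃ log U‖²)`. -/
def IsLHElliptic (W : ℝ → ℝ) : Prop :=
  ∀ F : M3, 0 < F.det → ∀ ξ η : Fin 3 → ℝ, ξ ≠ 0 → η ≠ 0 →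
    0 < deriv (deriv fun t : ℝ => W (K (F + t • vecMulVec ξ η))) 0

/-- The block matrices along which everything is explicit. -/
def B (x y w z : ℝ) : M3 := !![x, y, 0; -y, w, 0; 0, 0, z]

theorem det_B (x y w z : ℝ) : (B x y w z).det = (x * w + y ^ 2) * z := by
  simp [B, Matrix.det_fin_three]
  ring

theorem K_B {x y w z S δ : ℝ} (hδ : δ = x * w + y ^ 2) (hδ0 : 0 < δ) (hz : 0 < z)
    (hS : x - w = 2 * √δ * Real.sinh S) :
    K (B x y w z) = 2 * S ^ 2 + 1 / 6 * (Real.log δ - 2 * Real.log z) ^ 2 := by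
  have hdet : (B x y w z).det ≠ 0 := by
    rw [det_B, ← hδ]; positivity
  have hsq : √δ ^ 2 = δ := Real.sq_sqrt hδ0.le
  rw [K_of_charpoly hdet ![Real.log δ / 2 + S, Real.log δ / 2 - S, Real.log z]]
  · simp only [Fin.sum_univ_three, Matrix.cons_val_zero, Matrix.cons_val_one, Matrix.cons_val]
    ring
  · rw [Fin.prod_univ_three]
    simp only [Matrix.cons_val_zero, Matrix.cons_val_one, Matrix.cons_val]
    set a := Real.exp (2 * (Real.log δ / 2 + S)) with ha
    set b := Real.exp (2 * (Real.log δ / 2 - S)) with hb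
    have hc : Real.exp (2 * Real.log z) = z ^ 2 := by
      rw [two_mul, Real.exp_add, Real.exp_log hz]; ring
    have ha' : a = δ * Real.exp S ^ 2 := by
      rw [ha, show 2 * (Real.log δ / 2 + S) = Real.log δ + (S + S) by ring, Real.exp_add,
        Real.exp_log hδ0, Real.exp_add]
      ring
    have hb' : b = δ * Real.exp (-S) ^ 2 := by
      rw [hb, show 2 * (Real.log δ / 2 - S) = Real.log δ + (-S + -S) by ring, Real.exp_add,
        Real.exp_log hδ0, Real.exp_add]
      ring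
    have hE : Real.exp S * Real.exp (-S) = 1 := by rw [← Real.exp_add]; simp
    have hsum : a + b = x ^ 2 + w ^ 2 + 2 * y ^ 2 := by
      have h1 : (x - w) ^ 2 = δ * (Real.exp S - Real.exp (-S)) ^ 2 := by
        rw [hS, Real.sinh_eq, mul_pow, mul_pow, hsq]
        ring
      have h2 : a + b = δ * (Real.exp S - Real.exp (-S)) ^ 2 + 2 * δ := by
        rw [ha', hb']
        have : (Real.exp S - Real.exp (-S)) ^ 2
            = Real.exp S ^ 2 + Real.exp (-S) ^ 2 - 2 * (Real.exp S * Real.exp (-S)) := by ring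
        rw [this, hE]
        ring
      rw [h2, ← h1, hδ]
      ring
    have hprod : a * b = (x * w + y ^ 2) ^ 2 := by
      rw [ha', hb', ← hδ]
      calc δ * Real.exp S ^ 2 * (δ * Real.exp (-S) ^ 2)
          = δ ^ 2 * (Real.exp S * Real.exp (-S)) ^ 2 := by ring
        _ = δ ^ 2 := by rw [hE]; ring
    rw [hc]
    have e : (X - C a) * (X - C b) * (X - C (z ^ 2))
        = (X ^ 2 - C (a + b) * X + C (a * b)) * (X - C (z ^ 2)) := by
      simp only [C_add, C_mul]
      ring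
    rw [e, hsum, hprod, Matrix.charpoly, Matrix.det_fin_three]
    have h2 : (C (2 : ℝ) : ℝ[X]) = 2 := rfl
    simp [B, Matrix.charmatrix, Matrix.mul_apply, Fin.sum_univ_three]
    rw [h2]
    ring

/-- The second derivative of a composition at a critical point. -/
theorem chain2 {W : ℝ → ℝ} (hW : ContDiffOn ℝ 2 W (Ici 0)) {k k' : ℝ → ℝ} {k2 c : ℝ} (hc : 0 < c)
    (hk0 : k 0 = c) (hk : ∀ᶠ t in 𝓝 0, HasDerivAt k (k' t) t) (hk'0 : k' 0 = 0)
    (hk2 : HasDerivAt k' k2 0) : deriv (deriv fun t => W (k t)) 0 = deriv W c * k2 := by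
  have hWc : ∀ s : ℝ, 0 < s → ContDiffAt ℝ 2 W s := fun s hs =>
    hW.contDiffAt (Ici_mem_nhds hs)
  have hW1 : ∀ s : ℝ, 0 < s → HasDerivAt W (deriv W s) s := fun s hs =>
    ((hWc s hs).differentiableAt (by norm_num)).hasDerivAt
  have hW2 : DifferentiableAt ℝ (deriv W) c := by
    have h1 : ContDiffOn ℝ 2 W (Ioi 0) := hW.mono Ioi_subset_Ici_self
    have h2 : ContDiffOn ℝ (1 + 1) W (Ioi 0) := by rwa [one_add_one_eq_two]
    have h3 := ((contDiffOn_succ_iff_deriv_of_isOpen isOpen_Ioi).mp h2).2.2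
    exact (h3.contDiffAt (Ioi_mem_nhds hc)).differentiableAt (by simp)
  have hkc : ContinuousAt k 0 := hk.self_of_nhds.continuousAt
  have hpos : ∀ᶠ t in 𝓝 (0 : ℝ), 0 < k t := by
    have : Tendsto k (𝓝 0) (𝓝 c) := by rw [← hk0]; exact hkc
    exact this.eventually (lt_mem_nhds hc)
  have h1 : (deriv fun t => W (k t)) =ᶠ[𝓝 0] fun t => deriv W (k t) * k' t := by
    filter_upwards [hk, hpos] with t ht hp
    exact ((hW1 _ hp).comp t ht).deriv
  rw [h1.deriv_eq]
  have h2 : HasDerivAt (fun t => deriv W (k t)) (deriv (deriv W) c * k' 0) 0 := by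
    have h3 : HasDerivAt (deriv W) (deriv (deriv W) c) (k 0) := by
      rw [hk0]; exact hW2.hasDerivAt
    exact h3.comp (0 : ℝ) hk.self_of_nhds
  have h4 := h2.mul hk2
  have h5 := h4.deriv
  have e : (fun t => deriv W (k t) * k' t) = (fun t => deriv W (k t)) * k' := rfl
  rw [e, h5, hk'0, hk0]
  ring

/-! ### The first line -/

theorem lineA (t : ℝ) (ht : -1 < t) :
    K (B (Real.exp √84) 0 (Real.exp (-√84)) 1 + t • vecMulVec ![0, 0, 1] ![0, 0, 1])
      = 168 + 2 / 3 * Real.log (1 + t) ^ 2 := by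
  have e : B (Real.exp √84) 0 (Real.exp (-√84)) 1 + t • vecMulVec ![0, 0, 1] ![0, 0, 1]
      = B (Real.exp √84) 0 (Real.exp (-√84)) (1 + t) := by
    ext i j
    fin_cases i <;> fin_cases j <;> simp [B, vecMulVec]
  have h84 : √84 ^ 2 = 84 := Real.sq_sqrt (by norm_num)
  rw [e, K_B (S := √84) (δ := 1) ?_ one_pos (by linarith) ?_, h84, Real.log_one]
  · ring
  · rw [← Real.exp_add]; simp
  · rw [Real.sqrt_one, Real.sinh_eq]; ring

theorem posW {W : ℝ → ℝ} (hW : ContDiffOn ℝ 2 W (Ici 0)) (h : IsLHElliptic W) :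
    0 < deriv W 168 := by
  have h1 := h (B (Real.exp √84) 0 (Real.exp (-√84)) 1) ?_ ![0, 0, 1] ![0, 0, 1] ?_ ?_
  · have he : (fun t : ℝ => W (K (B (Real.exp √84) 0 (Real.exp (-√84)) 1
        + t • vecMulVec ![0, 0, 1] ![0, 0, 1])))
        =ᶠ[𝓝 0] fun t => W (168 + 2 / 3 * Real.log (1 + t) ^ 2) := by
      filter_upwards [lt_mem_nhds (by norm_num : (-1 : ℝ) < 0)] with t ht
      rw [lineA t ht]
    rw [he.deriv.deriv_eq] at h1
    have hlog : ∀ t : ℝ, -1 < t → HasDerivAt (fun t => Real.log (1 + t)) (1 + t)⁻¹ t := by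
      intro t ht
      have h2 : HasDerivAt (fun t : ℝ => 1 + t) 1 t := (hasDerivAt_id t).const_add 1
      have h3 := h2.log (by linarith)
      simpa using h3
    rw [chain2 hW (k := fun t => 168 + 2 / 3 * Real.log (1 + t) ^ 2)
      (k' := fun t => 4 / 3 * (Real.log (1 + t) * (1 + t)⁻¹)) (k2 := 4 / 3) (c := 168)
      (by norm_num) (by simp) ?_ (by simp) ?_] at h1
    · linarith
    · filter_upwards [lt_mem_nhds (by norm_num : (-1 : ℝ) < 0)] with t ht
      have h2 := (((hlog t ht).pow 2).const_mul (2 / 3)).const_add 168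
      refine h2.congr_deriv ?_
      norm_num
      ring
    · have h2 : HasDerivAt (fun t : ℝ => 1 + t) 1 0 := (hasDerivAt_id (0 : ℝ)).const_add 1
      have h3 := ((hlog 0 (by norm_num)).mul (h2.inv (by norm_num))).const_mul (4 / 3)
      refine h3.congr_deriv ?_
      simp
  · rw [det_B, ← Real.exp_add]; simp
  · intro h0
    have := congrFun h0 2
    simp at this
  · intro h0
    have := congrFun h0 2
    simp at this

/-! ### The second line -/

/-- `x - w` along the second line. -/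
def uu (t : ℝ) : ℝ := Real.exp 3 * (1 + 4 * t) - Real.exp (-3) * (1 - t)

/-- The half difference of the logarithms of the first two singular values. -/
def SS (t : ℝ) : ℝ := Real.arsinh (uu t / (2 * √(1 + 3 * t)))

theorem lineB (t : ℝ) (ht : -(1 / 3) < t) :
    K (B (Real.exp 3) 0 (Real.exp (-3)) (Real.exp 15)
        + t • vecMulVec ![2 * Real.exp 3, -1, 0] ![2, Real.exp (-3), 0])
      = 2 * SS t ^ 2 + 1 / 6 * (Real.log (1 + 3 * t) - 30) ^ 2 := by
  have hE : Real.exp 3 * Real.exp (-3) = 1 := by rw [← Real.exp_add]; simp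
  have e : B (Real.exp 3) 0 (Real.exp (-3)) (Real.exp 15)
        + t • vecMulVec ![2 * Real.exp 3, -1, 0] ![2, Real.exp (-3), 0]
      = B (Real.exp 3 * (1 + 4 * t)) (2 * t) (Real.exp (-3) * (1 - t)) (Real.exp 15) := by
    ext i j
    fin_cases i <;> fin_cases j <;> simp [B, vecMulVec]
    · ring
    · have : t * (2 * Real.exp 3 * Real.exp (-3)) = 2 * t * (Real.exp 3 * Real.exp (-3)) := by ring
      rw [this, hE, mul_one]
    · ring
    · ring
  have hδ : (0 : ℝ) < 1 + 3 * t := by linarith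
  have hs : 0 < √(1 + 3 * t) := Real.sqrt_pos.mpr hδ
  rw [e, K_B (S := SS t) (δ := 1 + 3 * t) ?_ hδ (Real.exp_pos _) ?_, Real.log_exp]
  · ring
  · have : Real.exp 3 * (1 + 4 * t) * (Real.exp (-3) * (1 - t)) + (2 * t) ^ 2
        = (Real.exp 3 * Real.exp (-3)) * ((1 + 4 * t) * (1 - t)) + (2 * t) ^ 2 := by ring
    rw [this, hE]
    ring
  · rw [SS, Real.sinh_arsinh, mul_div_cancel₀ _ (by positivity), uu]

/-- The derivative of `SS`. -/
def SS' (t : ℝ) : ℝ :=
  (2 * (1 + 3 * t) * (4 * Real.exp 3 + Real.exp (-3)) - 3 * uu t)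
    / (2 * (1 + 3 * t) * √(uu t ^ 2 + 4 * (1 + 3 * t)))

theorem uu_hasDerivAt (t : ℝ) : HasDerivAt uu (4 * Real.exp 3 + Real.exp (-3)) t := by
  unfold uu
  have h1 : HasDerivAt (fun t : ℝ => 1 + 4 * t) (4 * 1) t :=
    ((hasDerivAt_id t).const_mul 4).const_add 1
  have h2 : HasDerivAt (fun t : ℝ => 1 - t) (-1) t := (hasDerivAt_id t).const_sub 1
  have h3 := (h1.const_mul (Real.exp 3)).sub (h2.const_mul (Real.exp (-3)))
  refine h3.congr_deriv ?_
  ring

theorem del_hasDerivAt (t : ℝ) : HasDerivAt (fun t : ℝ => 1 + 3 * t) 3 t := by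
  have h1 : HasDerivAt (fun t : ℝ => 1 + 3 * t) (3 * 1) t :=
    ((hasDerivAt_id t).const_mul 3).const_add 1
  simpa using h1

theorem SS_hasDerivAt (t : ℝ) (ht : -(1 / 3) < t) : HasDerivAt SS (SS' t) t := by
  have hδ : (0 : ℝ) < 1 + 3 * t := by linarith
  have hs : 0 < √(1 + 3 * t) := Real.sqrt_pos.mpr hδ
  have hsq : √(1 + 3 * t) ^ 2 = 1 + 3 * t := Real.sq_sqrt hδ.le
  have h1 : HasDerivAt (fun t : ℝ => 2 * √(1 + 3 * t)) (3 / √(1 + 3 * t)) t := by
    have h2 := ((del_hasDerivAt t).sqrt hδ.ne').const_mul 2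
    refine h2.congr_deriv ?_
    field_simp
  have h3 := ((uu_hasDerivAt t).fun_div h1 (by positivity)).arsinh
  refine h3.congr_deriv ?_
  have hR : √(1 + (uu t / (2 * √(1 + 3 * t))) ^ 2)
      = √(uu t ^ 2 + 4 * (1 + 3 * t)) / (2 * √(1 + 3 * t)) := by
    rw [Real.sqrt_eq_iff_mul_self_eq (by positivity) (by positivity)]
    have hR2 : √(uu t ^ 2 + 4 * (1 + 3 * t)) * √(uu t ^ 2 + 4 * (1 + 3 * t))
        = uu t ^ 2 + 4 * (1 + 3 * t) := Real.mul_self_sqrt (by positivity)
    rw [div_mul_div_comm, hR2]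
    have : 2 * √(1 + 3 * t) * (2 * √(1 + 3 * t)) = 4 * (1 + 3 * t) := by
      linear_combination 4 * hsq
    rw [this, div_pow, mul_pow, hsq]
    field_simp
    ring
  rw [hR, SS', smul_eq_mul]
  have hRpos : 0 < √(uu t ^ 2 + 4 * (1 + 3 * t)) := Real.sqrt_pos.mpr (by positivity)
  generalize √(uu t ^ 2 + 4 * (1 + 3 * t)) = R at *
  generalize √(1 + 3 * t) = r at *
  rw [← hsq]
  field_simp

theorem uu_zero : uu 0 = 2 * Real.sinh 3 := by
  rw [uu, Real.sinh_eq]; ring

theorem R_zero : √(uu 0 ^ 2 + 4 * (1 + 3 * 0)) = 2 * Real.cosh 3 := by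
  rw [uu_zero]
  have h : (2 * Real.sinh 3) ^ 2 + 4 * (1 + 3 * 0) = (2 * Real.cosh 3) ^ 2 := by
    have := Real.cosh_sq 3
    rw [mul_pow, mul_pow, this]; ring
  rw [h, Real.sqrt_sq (by have := Real.cosh_pos 3; positivity)]

theorem u1_eq : 4 * Real.exp 3 + Real.exp (-3) = 5 * Real.cosh 3 + 3 * Real.sinh 3 := by
  rw [Real.cosh_eq, Real.sinh_eq]; ring

theorem SS_zero : SS 0 = 3 := by
  rw [SS, uu_zero]
  have : 2 * Real.sinh 3 / (2 * √(1 + 3 * 0)) = Real.sinh 3 := by
    rw [mul_zero, add_zero, Real.sqrt_one]; ring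
  rw [this, Real.arsinh_sinh]

theorem SS'_zero : SS' 0 = 5 / 2 := by
  have hc := Real.cosh_pos 3
  rw [SS', R_zero, u1_eq, uu_zero]
  field_simp
  ring

theorem SS'_hasDerivAt :
    HasDerivAt SS' (-(15 / 2) - 4 * (Real.sinh 3 / Real.cosh 3)) 0 := by
  have hc := Real.cosh_pos 3
  have hδ := del_hasDerivAt 0
  have hu := uu_hasDerivAt 0
  have hn : HasDerivAt (fun t => 2 * (1 + 3 * t) * (4 * Real.exp 3 + Real.exp (-3)) - 3 * uu t)
      (3 * (4 * Real.exp 3 + Real.exp (-3))) 0 := by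
    have h1 := ((hδ.const_mul 2).mul_const (4 * Real.exp 3 + Real.exp (-3))).sub (hu.const_mul 3)
    refine h1.congr_deriv ?_
    ring
  have hpos : uu 0 ^ 2 + 4 * (1 + 3 * 0) ≠ 0 := by positivity
  have hR : HasDerivAt (fun t => √(uu t ^ 2 + 4 * (1 + 3 * t)))
      ((Real.sinh 3 * (4 * Real.exp 3 + Real.exp (-3)) + 3) / Real.cosh 3) 0 := by
    have h1 := (((hu.pow 2).add (hδ.const_mul 4)).sqrt (by simpa using hpos))
    refine h1.congr_deriv ?_
    simp only [Pi.add_apply, Pi.pow_apply]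
    rw [R_zero, uu_zero]
    field_simp
    norm_num
    ring
  have hd : HasDerivAt (fun t => 2 * (1 + 3 * t) * √(uu t ^ 2 + 4 * (1 + 3 * t)))
      (6 * (2 * Real.cosh 3) +
        2 * ((Real.sinh 3 * (4 * Real.exp 3 + Real.exp (-3)) + 3) / Real.cosh 3)) 0 := by
    have h1 := (hδ.const_mul 2).mul hR
    refine h1.congr_deriv ?_
    rw [R_zero]
    ring
  have hne : 2 * (1 + 3 * (0 : ℝ)) * √(uu 0 ^ 2 + 4 * (1 + 3 * 0)) ≠ 0 := by
    rw [R_zero]; positivity
  have h := hn.fun_div hd hne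
  refine h.congr_deriv ?_
  rw [R_zero, u1_eq, uu_zero]
  have hcs := Real.cosh_sq 3
  have hs2 : Real.sinh 3 ^ 2 = Real.cosh 3 ^ 2 - 1 := by linarith
  generalize Real.cosh 3 = c at *
  generalize Real.sinh 3 = s at *
  field_simp
  ring_nf
  simp only [hs2]
  ring

theorem tanh_bound : 28 - 48 * (Real.sinh 3 / Real.cosh 3) < 0 := by
  have hc := Real.cosh_pos 3
  have h1 : 7 / 12 < Real.sinh 3 / Real.cosh 3 := by
    rw [lt_div_iff₀ hc, Real.sinh_eq, Real.cosh_eq]
    have h2 : (4 : ℝ) ≤ Real.exp 3 := by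
      have := Real.add_one_le_exp (3 : ℝ); linarith
    have h3 : Real.exp (-3) ≤ 1 := Real.exp_le_one_iff.mpr (by norm_num)
    have h4 := Real.exp_pos (-3)
    have h5 : Real.exp (-3) ≤ 1 / 4 := by
      rw [Real.exp_neg, one_div]
      gcongr
    linarith
  linarith

theorem negW {W : ℝ → ℝ} (hW : ContDiffOn ℝ 2 W (Ici 0)) (h : IsLHElliptic W) :
    deriv W 168 < 0 := by
  have h1 := h (B (Real.exp 3) 0 (Real.exp (-3)) (Real.exp 15)) ?_
    ![2 * Real.exp 3, -1, 0] ![2, Real.exp (-3), 0] ?_ ?_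
  · have he : (fun t : ℝ => W (K (B (Real.exp 3) 0 (Real.exp (-3)) (Real.exp 15)
        + t • vecMulVec ![2 * Real.exp 3, -1, 0] ![2, Real.exp (-3), 0])))
        =ᶠ[𝓝 0] fun t => W (2 * SS t ^ 2 + 1 / 6 * (Real.log (1 + 3 * t) - 30) ^ 2) := by
      filter_upwards [lt_mem_nhds (by norm_num : (-(1 / 3) : ℝ) < 0)] with t ht
      rw [lineB t ht]
    rw [he.deriv.deriv_eq] at h1
    have hlog : ∀ t : ℝ, -(1 / 3) < t →
        HasDerivAt (fun t => Real.log (1 + 3 * t)) (3 * (1 + 3 * t)⁻¹) t := by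
      intro t ht
      have h3 := (del_hasDerivAt t).log (by linarith)
      refine h3.congr_deriv ?_
      rw [div_eq_mul_inv]
    rw [chain2 hW (k := fun t => 2 * SS t ^ 2 + 1 / 6 * (Real.log (1 + 3 * t) - 30) ^ 2)
      (k' := fun t => 4 * (SS t * SS' t) + (Real.log (1 + 3 * t) - 30) * (1 + 3 * t)⁻¹)
      (k2 := 28 - 48 * (Real.sinh 3 / Real.cosh 3)) (c := 168)
      (by norm_num) ?_ ?_ ?_ ?_] at h1
    · by_contra hneg
      push Not at hneg
      have := tanh_bound
      nlinarith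
    · simp only [SS_zero]
      norm_num
    · filter_upwards [lt_mem_nhds (by norm_num : (-(1 / 3) : ℝ) < 0)] with t ht
      have h2 := (((SS_hasDerivAt t ht).pow 2).const_mul 2).add
        ((((hlog t ht).sub_const 30).pow 2).const_mul (1 / 6))
      refine h2.congr_deriv ?_
      norm_num
      ring
    · simp only [SS_zero, SS'_zero]
      norm_num
    · have h2 := (SS_hasDerivAt 0 (by norm_num)).mul SS'_hasDerivAt
      have h3 := ((hlog 0 (by norm_num)).sub_const 30).mul ((del_hasDerivAt 0).inv (by norm_num))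
      have h4 := (h2.const_mul 4).add h3
      refine h4.congr_deriv ?_
      rw [SS_zero, SS'_zero]
      norm_num
      ring
  · rw [det_B, ← Real.exp_add]
    have := Real.exp_pos 15
    simpa using this
  · intro h0
    have := congrFun h0 1
    simp at this
  · intro h0
    have := congrFun h0 0
    simp at this

/-- There is no twice continuously differentiable `W : [0,∞) → ℝ` for which
`F ↦ W (‖dev₃ log U‖²)` is Legendre-Hadamard elliptic on all of `GL⁺(3)`. -/
theorem result : ¬ ∃ W : ℝ → ℝ, ContDiffOn ℝ 2 W (Ici 0) ∧ IsLHElliptic W := by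
  rintro ⟨W, hW, h⟩
  have h1 := posW hW h
  have h2 := negW hW h
  linarith

end

end Pool.Agent.Results.MP_e7e597_an.NoElliptic
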